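import Pool.Agent.T2H35.FJL.Lin
import Pool.Agent.R684.FP.Free

/-!
# Finitary linear kernels
-/

set_option autoImplicit false

namespace Pool.Agent.T2H35.FJL

open Pool.Agent.Y110.FJ
open Pool.Agent.Y462.SS (Closed)

variable {D : Type} [DivisionRing D] {V : Type} [AddCommGroup V] [Module D V]

/-- the endomorphism `x - 1` -/
def nil (x : LinearMap.GeneralLinearGroup D V) : V →ₗ[D] V := (x : V →ₗ[D] V) - LinearMap.id

theorem nil_apply (x : LinearMap.GeneralLinearGroup D V) (v : V) :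
    nil x v = (x : V →ₗ[D] V) v - v := rfl

theorem coe_mul_apply (x y : LinearMap.GeneralLinearGroup D V) (v : V) :
    ((x * y : LinearMap.GeneralLinearGroup D V) : V →ₗ[D] V) v =
      (x : V →ₗ[D] V) ((y : V →ₗ[D] V) v) := rfl

theorem coe_inv_apply (x : LinearMap.GeneralLinearGroup D V) (v : V) :
    ((x⁻¹ : LinearMap.GeneralLinearGroup D V) : V →ₗ[D] V) ((x : V →ₗ[D] V) v) = v := by
  rw [← coe_mul_apply, inv_mul_cancel]
  rfl

theorem coe_inv_apply' (x : LinearMap.GeneralLinearGroup D V) (v : V) :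
    (x : V →ₗ[D] V) (((x⁻¹ : LinearMap.GeneralLinearGroup D V) : V →ₗ[D] V) v) = v := by
  rw [← coe_mul_apply, mul_inv_cancel]
  rfl

theorem nil_conj (T x : LinearMap.GeneralLinearGroup D V) (v : V) :
    nil (T * x * T⁻¹) v = (T : V →ₗ[D] V) (nil x (((T⁻¹ : LinearMap.GeneralLinearGroup D V) :
      V →ₗ[D] V) v)) := by
  rw [nil_apply, nil_apply, coe_mul_apply, coe_mul_apply, map_sub, coe_inv_apply']

theorem nil_mul (x y : LinearMap.GeneralLinearGroup D V) (v : V) :
    nil (x * y) v = nil x ((y : V →ₗ[D] V) v) + nil y v := by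
  rw [nil_apply, nil_apply, nil_apply, coe_mul_apply]
  abel

theorem nil_one (v : V) : nil (1 : LinearMap.GeneralLinearGroup D V) v = 0 := sub_self _

theorem nil_inv (x : LinearMap.GeneralLinearGroup D V) (v : V) :
    nil x⁻¹ v = - nil x (((x⁻¹ : LinearMap.GeneralLinearGroup D V) : V →ₗ[D] V) v) := by
  have h := nil_mul x x⁻¹ v
  rw [mul_inv_cancel, nil_one] at h
  exact (neg_eq_of_add_eq_zero_right h.symm).symm

/-- the elements which act inside `U` and trivially on `W` -/
def St (U W : Submodule D V) : Subgroup (LinearMap.GeneralLinearGroup D V) where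
  carrier := {x | (∀ v, nil x v ∈ U) ∧ ∀ w ∈ W, nil x w = 0}
  mul_mem' := fun {x y} hx hy => ⟨fun v => by
      rw [nil_mul]
      exact U.add_mem (hx.1 _) (hy.1 _), fun w hw => by
      have h1 : (y : V →ₗ[D] V) w = w := by
        have := hy.2 w hw
        rwa [nil_apply, sub_eq_zero] at this
      rw [nil_mul, h1, hx.2 w hw, hy.2 w hw, add_zero]⟩
  one_mem' := ⟨fun v => by rw [nil_one]; exact U.zero_mem, fun w _ => nil_one w⟩
  inv_mem' := fun {x} hx => ⟨fun v => by
      rw [nil_inv]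
      exact U.neg_mem (hx.1 _), fun w hw => by
      have h1 : (x : V →ₗ[D] V) w = w := by
        have := hx.2 w hw
        rwa [nil_apply, sub_eq_zero] at this
      have h2 := coe_inv_apply x w
      rw [h1] at h2
      rw [nil_apply, h2, sub_self]⟩

theorem mem_St {U W : Submodule D V} {x : LinearMap.GeneralLinearGroup D V} :
    x ∈ St U W ↔ (∀ v, nil x v ∈ U) ∧ ∀ w ∈ W, nil x w = 0 := Iff.rfl

theorem St_maps {U W : Submodule D V} {x : LinearMap.GeneralLinearGroup D V} (hx : x ∈ St U W)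
    (u : V) (hu : u ∈ U) : (x : V →ₗ[D] V) u ∈ U := by
  have h1 := U.add_mem (hx.1 u) hu
  rw [nil_apply, sub_add_cancel] at h1
  exact h1

/-- the restriction -/
noncomputable def res (U W : Submodule D V) : St U W →* Module.End D U where
  toFun x := ((x : LinearMap.GeneralLinearGroup D V) : V →ₗ[D] V).restrict (St_maps x.2)
  map_one' := rfl
  map_mul' _ _ := rfl

theorem res_apply (U W : Submodule D V) (x : St U W) (u : U) :
    ((res U W x u : U) : V) = ((x : LinearMap.GeneralLinearGroup D V) : V →ₗ[D] V) u := rfl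

theorem res_injective {U W : Submodule D V} (h : ∀ v : V, ∃ u ∈ U, ∃ w ∈ W, u + w = v) :
    Function.Injective (res U W) := by
  intro x y hxy
  apply Subtype.ext
  apply Units.ext
  refine LinearMap.ext fun v => ?_
  obtain ⟨u, hu, w, hw, rfl⟩ := h v
  have h1 : ((x : LinearMap.GeneralLinearGroup D V) : V →ₗ[D] V) u =
      ((y : LinearMap.GeneralLinearGroup D V) : V →ₗ[D] V) u := by
    have := LinearMap.congr_fun hxy ⟨u, hu⟩
    exact congrArg Subtype.val this
  have h2 := x.2.2 w hw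
  have h3 := y.2.2 w hw
  rw [nil_apply, sub_eq_zero] at h2 h3
  rw [map_add, map_add, h1, h2, h3]

/-- the general linear group of a finite-dimensional space is in the class -/
theorem C_gl {C : ∀ (G : Type) [Group G], Prop} (hC : Closed C)
    (hGL : ∀ n : ℕ, C (LinearMap.GeneralLinearGroup D (Fin n → D))) (U : Type) [AddCommGroup U]
    [Module D U] [FiniteDimensional D U] : C (Module.End D U)ˣ := by
  let b := Module.finBasis D U
  let e : U ≃ₗ[D] (Fin (Module.finrank D U) → D) := b.equivFun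
  let f : Module.End D U →* Module.End D (Fin (Module.finrank D U) → D) :=
    { toFun := fun x => (e : U →ₗ[D] _).comp (x.comp (e.symm : _ →ₗ[D] U))
      map_one' := by
        refine LinearMap.ext fun v => ?_
        simp
      map_mul' := fun x y => by
        refine LinearMap.ext fun v => ?_
        simp }
  have hf : Function.Injective f := by
    intro x y h
    refine LinearMap.ext fun u => ?_
    have h1 := LinearMap.congr_fun h (e u)
    have h2 : e (x (e.symm (e u))) = e (y (e.symm (e u))) := h1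
    rw [e.symm_apply_apply] at h2
    exact e.injective h2
  exact hC.of_injective _ _ (Units.map f) (Units.map_injective hf) (hGL _)

variable {C : ∀ (G : Type) [Group G], Prop}

theorem main (hC : ClosedE C)
    (hGL : ∀ n : ℕ, C (LinearMap.GeneralLinearGroup D (Fin n → D)))
    {G : Type} [Group G] (N : Subgroup G) [hNn : N.Normal] (hQ : C (G ⧸ N))
    (ρ : N →* LinearMap.GeneralLinearGroup D V) (hρ : Function.Injective ρ)
    (hfin : ∀ x : N, FiniteDimensional D (LinearMap.range (nil (ρ x))))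
    (hT : ∀ g : G, ∃ T : LinearMap.GeneralLinearGroup D V, ∀ x y : N,
      (y : G) = g * x * g⁻¹ → ρ y = T * ρ x * T⁻¹) : C G := by
  classical
  refine Pool.Agent.R779.FJ.t_crit Pool.Agent.Y529.FJ.t_ext
    (Pool.Agent.Y961.FJ.t_perm Pool.Agent.Y529.FJ.t_ext) C hC G N hQ (fun g E hE hEN => ?_)
  obtain ⟨T, hT⟩ := hT g
  have hEf : Finite E := hE
  let ι : E → N := fun x => ⟨x, hEN x.2⟩
  -- the common data
  let R : E → Submodule D V := fun x => LinearMap.range (nil (ρ (ι x)))
  have hR : ∀ x : E, FiniteDimensional D (R x) := fun x => hfin _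
  let f1 : V →ₗ[D] (∀ x : E, R x) := LinearMap.pi fun x => (nil (ρ (ι x))).rangeRestrict
  have hf1 : ∀ (v : V) (x : E), ((f1 v x : R x) : V) = nil (ρ (ι x)) v := fun v x => rfl
  let f2 : V →ₗ[D] (∀ x : E, R x) :=
    f1.comp ((T⁻¹ : LinearMap.GeneralLinearGroup D V) : V →ₗ[D] V)
  have hf2 : ∀ v, f2 v = f1 (((T⁻¹ : LinearMap.GeneralLinearGroup D V) : V →ₗ[D] V) v) :=
    fun v => rfl
  have hf12 : ∀ v, f2 ((T : V →ₗ[D] V) v) = f1 v := fun v => by rw [hf2, coe_inv_apply]
  let U1 : Submodule D V := ⨆ x : E, R x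
  have hU1 : FiniteDimensional D U1 := Submodule.finite_iSup _
  let U2 : Submodule D V := U1.map (T : V →ₗ[D] V)
  have hU2 : FiniteDimensional D U2 := inferInstance
  let W : Submodule D V := LinearMap.ker (f1.prod f2)
  obtain ⟨Q, hQc⟩ := Submodule.exists_isCompl W
  have hQfin : FiniteDimensional D Q := by
    have h1 : Function.Injective ((f1.prod f2).comp Q.subtype) := by
      rw [← LinearMap.ker_eq_bot, LinearMap.ker_eq_bot']
      intro m hm
      have h2 : (m : V) ∈ W := hm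
      have h3 : (m : V) ∈ Q ⊓ W := ⟨m.2, h2⟩
      rw [hQc.symm.inf_eq_bot, Submodule.mem_bot] at h3
      exact Subtype.ext h3
    exact FiniteDimensional.of_injective _ h1
  let U : Submodule D V := U1 ⊔ U2 ⊔ Q
  have hU : FiniteDimensional D U := inferInstance
  have hU1U : U1 ≤ U := le_sup_left.trans le_sup_left
  have hU2U : U2 ≤ U := le_sup_right.trans le_sup_left
  have hUW : ∀ v : V, ∃ u ∈ U, ∃ w ∈ W, u + w = v := by
    intro v
    have h1 : v ∈ W ⊔ Q := by rw [hQc.sup_eq_top]; trivial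
    obtain ⟨w, hw, u, hu, h2⟩ := Submodule.mem_sup.1 h1
    exact ⟨u, (le_sup_right : Q ≤ U) hu, w, hw, by rw [add_comm]; exact h2⟩
  have hW : ∀ w ∈ W, f1 w = 0 ∧ f2 w = 0 := by
    intro w hw
    have h1 : (f1.prod f2) w = 0 := hw
    exact ⟨congrArg Prod.fst h1, congrArg Prod.snd h1⟩
  have hRU : ∀ (x : E) (v : V), nil (ρ (ι x)) v ∈ U1 := fun x v =>
    (le_iSup R x : R x ≤ U1) ⟨v, rfl⟩
  -- the isomorphism `p`
  let A' : U →ₗ[D] (∀ x : E, R x) := f1.comp U.subtype
  let B' : U →ₗ[D] (∀ x : E, R x) := f2.comp U.subtype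
  have hA' : LinearMap.range A' = LinearMap.range f1 := by
    apply le_antisymm
    · rintro _ ⟨u, rfl⟩
      exact ⟨u, rfl⟩
    · rintro _ ⟨v, rfl⟩
      obtain ⟨u, hu, w, hw, rfl⟩ := hUW v
      refine ⟨⟨u, hu⟩, ?_⟩
      show f1 u = f1 (u + w)
      rw [map_add, (hW w hw).1, add_zero]
  have hB' : LinearMap.range B' = LinearMap.range f1 := by
    apply le_antisymm
    · rintro _ ⟨u, rfl⟩
      exact ⟨_, rfl⟩
    · rintro _ ⟨v, rfl⟩
      obtain ⟨u, hu, w, hw, h1⟩ := hUW ((T : V →ₗ[D] V) v)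
      refine ⟨⟨u, hu⟩, ?_⟩
      show f2 u = f1 v
      rw [← hf12 v, ← h1, map_add, (hW w hw).2, add_zero]
  let q : (U1.comap U.subtype) →ₗ[D] U := LinearMap.codRestrict U
    ((T : V →ₗ[D] V).comp (U.subtype.comp (U1.comap U.subtype).subtype)) (fun u => by
      exact hU2U ⟨_, u.2, rfl⟩)
  have hqv : ∀ u : U1.comap U.subtype, ((q u : U) : V) = (T : V →ₗ[D] V) ((u : U) : V) :=
    fun u => rfl
  have hq : Function.Injective q := by
    intro u u' h
    have h1 : (T : V →ₗ[D] V) ((u : U) : V) = (T : V →ₗ[D] V) ((u' : U) : V) :=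
      congrArg Subtype.val h
    have h2 := congrArg ((T⁻¹ : LinearMap.GeneralLinearGroup D V) : V →ₗ[D] V) h1
    rw [coe_inv_apply, coe_inv_apply] at h2
    exact Subtype.ext (Subtype.ext h2)
  obtain ⟨p, hp1, hp2⟩ := key A' B' (hA'.trans hB'.symm) (U1.comap U.subtype) q hq (fun u => by
    show f2 ((q u : U) : V) = f1 ((u : U) : V)
    rw [hqv, hf12])
  have hp1' : ∀ (v : V) (hv : v ∈ U1), ((p ⟨v, hU1U hv⟩ : U) : V) = (T : V →ₗ[D] V) v := by
    intro v hv
    have h1 := hp1 ⟨⟨v, hU1U hv⟩, hv⟩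
    have h2 := congrArg Subtype.val h1
    exact h2
  have hp2' : ∀ (u : U) (x : E), nil (ρ (ι x)) (((T⁻¹ : LinearMap.GeneralLinearGroup D V) :
      V →ₗ[D] V) (p u)) = nil (ρ (ι x)) (u : V) := by
    intro u x
    have h1 : f1 (((T⁻¹ : LinearMap.GeneralLinearGroup D V) : V →ₗ[D] V) ((p u : U) : V)) =
      f1 (u : V) := hp2 u
    rw [← hf1, ← hf1, h1]
  -- the group
  have hHN : Subgroup.closure (E ∪ (fun x => g * x * g⁻¹) '' E) ≤ N := by
    rw [Subgroup.closure_le]
    rintro x (hx | ⟨y, hy, rfl⟩)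
    · exact hEN hx
    · exact hNn.conj_mem y (hEN hy) g
  have hw0 : ∀ (x : E) (w : V), f1 w = 0 → nil (ρ (ι x)) w = 0 := by
    intro x w h
    rw [← hf1, h]
    rfl
  have hHS : Subgroup.closure (E ∪ (fun x => g * x * g⁻¹) '' E) ≤
      ((St U W).comap ρ).map N.subtype := by
    rw [Subgroup.closure_le]
    rintro x (hx | ⟨y, hy, rfl⟩)
    · refine ⟨⟨x, hEN hx⟩, ?_, rfl⟩
      rw [SetLike.mem_coe, Subgroup.mem_comap, mem_St]
      exact ⟨fun v => hU1U (hRU ⟨x, hx⟩ v), fun w hw => hw0 ⟨x, hx⟩ w (hW w hw).1⟩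
    · refine ⟨⟨g * y * g⁻¹, hNn.conj_mem y (hEN hy) g⟩, ?_, rfl⟩
      rw [SetLike.mem_coe, Subgroup.mem_comap, mem_St, hT ⟨y, hEN hy⟩ _ rfl]
      refine ⟨fun v => ?_, fun w hw => ?_⟩
      · rw [nil_conj]
        exact hU2U ⟨_, hRU ⟨y, hy⟩ _, rfl⟩
      · rw [nil_conj, hw0 ⟨y, hy⟩ _ ((hf2 w).symm.trans (hW w hw).2), map_zero]
  have hHS' : ∀ x : Subgroup.closure (E ∪ (fun x => g * x * g⁻¹) '' E),
      ρ (Subgroup.inclusion hHN x) ∈ St U W := by
    intro x
    obtain ⟨y, hy, hyx⟩ := hHS x.2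
    have h1 : Subgroup.inclusion hHN x = y := Subtype.ext hyx.symm
    rw [h1]
    exact hy
  let φ : Subgroup.closure (E ∪ (fun x => g * x * g⁻¹) '' E) →* St U W :=
    (ρ.comp (Subgroup.inclusion hHN)).codRestrict (St U W) hHS'
  have hφ : Function.Injective φ := by
    intro x y h
    have h1 : ρ (Subgroup.inclusion hHN x) = ρ (Subgroup.inclusion hHN y) := congrArg Subtype.val h
    exact Subgroup.inclusion_injective hHN (hρ h1)
  let pu : (Module.End D U)ˣ := LinearMap.GeneralLinearGroup.ofLinearEquiv p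
  have hpu : ∀ u : U, (pu : Module.End D U) u = p u := fun u => rfl
  refine ⟨(Module.End D U)ˣ, inferInstance, (res U W).toHomUnits.comp φ, pu, C_gl hC.base hGL U, ?_,
    fun x y hx hy => ?_⟩
  · intro x y h
    have h1 : res U W (φ x) = res U W (φ y) := congrArg Units.val h
    exact hφ (res_injective hUW h1)
  · rw [eq_mul_inv_iff_mul_eq]
    apply Units.ext
    refine LinearMap.ext fun u => ?_
    have hyN : ρ (Subgroup.inclusion hHN y) = T * ρ (ι ⟨x, hx⟩) * T⁻¹ := hT _ _ hy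
    have hxN : Subgroup.inclusion hHN x = ι ⟨x, hx⟩ := rfl
    apply Subtype.ext
    show (ρ (Subgroup.inclusion hHN y) : V →ₗ[D] V) ((p u : U) : V) =
      ((p (res U W (φ x) u) : U) : V)
    -- the right side
    have h1 : res U W (φ x) u = u + ⟨nil (ρ (ι ⟨x, hx⟩)) u, hU1U (hRU ⟨x, hx⟩ _)⟩ := by
      apply Subtype.ext
      rw [res_apply]
      show (ρ (Subgroup.inclusion hHN x) : V →ₗ[D] V) u = (u : V) + nil (ρ (ι ⟨x, hx⟩)) u
      rw [hxN, nil_apply]
      abel
    rw [h1, map_add, Submodule.coe_add, hp1' _ (hRU ⟨x, hx⟩ _)]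
    have h2 : (ρ (Subgroup.inclusion hHN y) : V →ₗ[D] V) ((p u : U) : V) =
        nil (ρ (Subgroup.inclusion hHN y)) ((p u : U) : V) + ((p u : U) : V) := by
      rw [nil_apply]
      abel
    rw [h2, hyN, nil_conj, hp2']
    abel

end Pool.Agent.T2H35.FJL
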