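import Mathlib

/-!
# Linear algebra: extending a partial isomorphism compatible with two maps
-/

set_option autoImplicit false

namespace Pool.Agent.T2H35.FJL

variable {D : Type} [DivisionRing D]

/-- factor through -/
theorem exists_factor {X Y Z : Type} [AddCommGroup X] [Module D X] [AddCommGroup Y] [Module D Y]
    [AddCommGroup Z] [Module D Z] (f : X →ₗ[D] Y) (h : X →ₗ[D] Z)
    (hk : LinearMap.ker f ≤ LinearMap.ker h) : ∃ h' : Y →ₗ[D] Z, ∀ x, h' (f x) = h x := by
  obtain ⟨h', hh'⟩ := LinearMap.exists_extend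
    (((LinearMap.ker f).liftQ h hk).comp (f.quotKerEquivRange.symm : LinearMap.range f →ₗ[D] _))
  refine ⟨h', fun x => ?_⟩
  have h1 := LinearMap.congr_fun hh' ⟨f x, x, rfl⟩
  have h2 : f.quotKerEquivRange.symm ⟨f x, x, rfl⟩ = (LinearMap.ker f).mkQ x := by
    rw [LinearEquiv.symm_apply_eq]
    rfl
  simp only [LinearMap.comp_apply, Submodule.subtype_apply, LinearEquiv.coe_coe] at h1
  rw [h2] at h1
  rw [h1]
  rfl

/-- lift along a map with large range -/
theorem exists_section {X Y : Type} [AddCommGroup X] [Module D X] [AddCommGroup Y] [Module D Y]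
    (B : X →ₗ[D] Y) : ∃ s : Y →ₗ[D] X, ∀ y ∈ LinearMap.range B, B (s y) = y := by
  obtain ⟨t, ht⟩ := B.rangeRestrict.exists_rightInverse_of_surjective B.range_rangeRestrict
  obtain ⟨s, hs⟩ := LinearMap.exists_extend t
  refine ⟨s, fun y hy => ?_⟩
  have h1 := LinearMap.congr_fun hs ⟨y, hy⟩
  have h2 := LinearMap.congr_fun ht ⟨y, hy⟩
  have h3 : s y = t ⟨y, hy⟩ := h1
  rw [h3]
  exact congrArg Subtype.val h2

/-- extend an injective partial map to an isomorphism -/
theorem exists_equiv_extend {X Y : Type} [AddCommGroup X] [Module D X] [AddCommGroup Y] [Module D Y]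
    [FiniteDimensional D X] [FiniteDimensional D Y]
    (hXY : Module.finrank D X = Module.finrank D Y) (X1 : Submodule D X) (f : X1 →ₗ[D] Y)
    (hf : Function.Injective f) : ∃ r : X ≃ₗ[D] Y, ∀ x : X1, r x = f x := by
  obtain ⟨X2, hX⟩ := Submodule.exists_isCompl X1
  obtain ⟨Y2, hY⟩ := Submodule.exists_isCompl (LinearMap.range f)
  have h1 : Module.finrank D X1 + Module.finrank D X2 = Module.finrank D X :=
    Submodule.finrank_add_eq_of_isCompl hX
  have h2 : Module.finrank D (LinearMap.range f) + Module.finrank D Y2 = Module.finrank D Y :=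
    Submodule.finrank_add_eq_of_isCompl hY
  have h3 : Module.finrank D (LinearMap.range f) = Module.finrank D X1 :=
    LinearMap.finrank_range_of_inj hf
  have h4 : Module.finrank D X2 = Module.finrank D Y2 := by omega
  let e2 : X2 ≃ₗ[D] Y2 := LinearEquiv.ofFinrankEq _ _ h4
  let e1 : X1 ≃ₗ[D] LinearMap.range f := LinearEquiv.ofInjective f hf
  refine ⟨(Submodule.prodEquivOfIsCompl X1 X2 hX).symm ≪≫ₗ (LinearEquiv.prodCongr e1 e2) ≪≫ₗ
    (Submodule.prodEquivOfIsCompl _ Y2 hY), fun x => ?_⟩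
  simp only [LinearEquiv.trans_apply]
  have h5 : (Submodule.prodEquivOfIsCompl X1 X2 hX).symm (x : X) = (x, 0) :=
    Submodule.prodEquivOfIsCompl_symm_apply_left X1 X2 hX x
  rw [h5]
  simp [e1]

/-- **the key lemma** -/
theorem key {U M : Type} [AddCommGroup U] [Module D U] [FiniteDimensional D U] [AddCommGroup M]
    [Module D M] (A B : U →ₗ[D] M) (hr : LinearMap.range A = LinearMap.range B)
    (U1 : Submodule D U) (q : U1 →ₗ[D] U) (hq : Function.Injective q)
    (hBq : ∀ u : U1, B (q u) = A u) :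
    ∃ p : U ≃ₗ[D] U, (∀ u : U1, p u = q u) ∧ ∀ u, B (p u) = A u := by
  obtain ⟨s, hs⟩ := exists_section B
  obtain ⟨q', hq'⟩ := LinearMap.exists_extend q
  have hq'' : ∀ u : U1, q' u = q u := fun u => LinearMap.congr_fun hq' u
  obtain ⟨p0, hp0⟩ : ∃ p0 : U →ₗ[D] U, p0 = q' + s.comp (A - B.comp q') := ⟨_, rfl⟩
  have h1 : ∀ u : U1, p0 u = q u := by
    intro u
    rw [hp0]
    simp only [LinearMap.add_apply, LinearMap.comp_apply, LinearMap.sub_apply]
    rw [hq'', hBq, sub_self, map_zero, add_zero]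
  have h2 : ∀ u, B (p0 u) = A u := by
    intro u
    rw [hp0]
    simp only [LinearMap.add_apply, LinearMap.comp_apply, LinearMap.sub_apply, map_add]
    rw [hs]
    · abel
    · refine Submodule.sub_mem _ ?_ ⟨_, rfl⟩
      rw [← hr]
      exact ⟨_, rfl⟩
  -- the kernels
  have hk : Module.finrank D (LinearMap.ker A) = Module.finrank D (LinearMap.ker B) := by
    have e1 := LinearMap.finrank_range_add_finrank_ker A
    have e2 := LinearMap.finrank_range_add_finrank_ker B
    rw [hr] at e1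
    omega
  obtain ⟨KA, hKA⟩ : ∃ KA, KA = LinearMap.ker A := ⟨_, rfl⟩
  obtain ⟨KB, hKB⟩ : ∃ KB, KB = LinearMap.ker B := ⟨_, rfl⟩
  rw [← hKA, ← hKB] at hk
  have hmA : ∀ x, x ∈ KA ↔ A x = 0 := fun x => by rw [hKA, LinearMap.mem_ker]
  have hmB : ∀ x, x ∈ KB ↔ B x = 0 := fun x => by rw [hKB, LinearMap.mem_ker]
  let X1 : Submodule D KA := U1.comap KA.subtype
  have hX1 : ∀ x : X1, ((x : KA) : U) ∈ U1 := fun x => x.2
  let pK : KA →ₗ[D] KB := LinearMap.codRestrict KB (p0.comp KA.subtype) (fun x => by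
    rw [hmB]
    exact (h2 _).trans ((hmA _).1 x.2))
  have hpKv : ∀ x : KA, ((pK x : KB) : U) = p0 x := fun x => rfl
  let q1 : X1 →ₗ[D] KB := pK.comp X1.subtype
  have hq1 : Function.Injective q1 := by
    intro x y hxy
    have e1 : p0 ((x : KA) : U) = p0 ((y : KA) : U) := congrArg Subtype.val hxy
    have e2 : q ⟨((x : KA) : U), hX1 x⟩ = q ⟨((y : KA) : U), hX1 y⟩ := by
      rw [← h1, ← h1]
      exact e1
    have e3 := hq e2
    exact Subtype.ext (Subtype.ext (congrArg (fun z : U1 => (z : U)) e3))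
  obtain ⟨r, hr1⟩ := exists_equiv_extend hk X1 q1 hq1
  -- correction
  have hker : LinearMap.ker (U1.mkQ.comp KA.subtype) ≤ LinearMap.ker ((r : KA →ₗ[D] KB) - pK) := by
    intro x hx
    rw [LinearMap.mem_ker, LinearMap.comp_apply, Submodule.mkQ_apply,
      Submodule.Quotient.mk_eq_zero] at hx
    rw [LinearMap.mem_ker, LinearMap.sub_apply, sub_eq_zero]
    exact hr1 ⟨x, hx⟩
  obtain ⟨h', hh'⟩ := exists_factor _ _ hker
  obtain ⟨p, hp⟩ : ∃ p : U →ₗ[D] U, p = p0 + KB.subtype.comp (h'.comp U1.mkQ) := ⟨_, rfl⟩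
  have hpU : ∀ u : U1, p u = q u := by
    intro u
    rw [hp, LinearMap.add_apply, LinearMap.comp_apply, LinearMap.comp_apply, Submodule.mkQ_apply,
      (Submodule.Quotient.mk_eq_zero U1).2 u.2, map_zero, map_zero, add_zero, h1]
  have hpK : ∀ x : KA, p x = r x := by
    intro x
    have e1 := hh' x
    rw [hp, LinearMap.add_apply]
    have e2 : (KB.subtype.comp (h'.comp U1.mkQ)) (x : U) =
      ((h' ((U1.mkQ.comp KA.subtype) x) : KB) : U) := rfl
    rw [e2, e1, LinearMap.sub_apply, Submodule.coe_sub, hpKv]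
    simp
  have hpB : ∀ u, B (p u) = A u := by
    intro u
    rw [hp, LinearMap.add_apply, map_add, h2]
    have e1 : B ((KB.subtype.comp (h'.comp U1.mkQ)) u) = 0 := (hmB _).1 (h' (U1.mkQ u)).2
    rw [e1, add_zero]
  have hinj : Function.Injective p := by
    rw [← LinearMap.ker_eq_bot, LinearMap.ker_eq_bot']
    intro u hu
    have e1 : A u = 0 := by rw [← hpB, hu, map_zero]
    have e2 : u ∈ KA := (hmA u).2 e1
    have e3 := hpK ⟨u, e2⟩
    have e4 : ((r ⟨u, e2⟩ : KB) : U) = 0 := e3.symm.trans hu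
    have e5 : r ⟨u, e2⟩ = 0 := Subtype.ext e4
    have e6 : (⟨u, e2⟩ : KA) = 0 := r.map_eq_zero_iff.1 e5
    exact congrArg Subtype.val e6
  exact ⟨LinearEquiv.ofInjectiveEndo p hinj, hpU, hpB⟩

end Pool.Agent.T2H35.FJL
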